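import Pool.Agent.U251.LD.Stm
import Pool.Agent.U329.LB.VAR

set_option autoImplicit false

/-!
# Project LD, package VAR: the variance of the increments (helper858, port of `Pool.Agent.U329.LB.VAR`
of helper329)
-/

namespace Pool.Agent.U858.LD

open Real Filter Topology Finset
open Pool.Agent.U251.LD (dv cd S_RS S_UP S_VAR)
open Pool.Agent.U329.LB (ps ps_cont ps_nonneg tendsto_div tendsto_div_sq lim_floor lim_floor_sq
  lim_log lim_B mass_two second one_sub_cos_le mass compare)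

/-- the cumulative sum -/
noncomputable def A (X : ℕ) : ℝ := ∑ n ∈ Finset.Ioc 0 X, dv n ^ 2

lemma A_eq (X : ℕ) : A X = ∑ n ∈ Finset.Icc 1 X, dv n ^ 2 := by
  unfold A
  rfl

/-- the weight of the first family -/
noncomputable def wt (h : ℝ) : ℝ := π ^ 2 * h ^ 2 / (8 * log (1 / h) ^ 3)

lemma lim_A (hRS : S_RS) {t : ℝ} (ht : 0 < t) :
    Tendsto (fun h : ℝ => wt h * A ⌊t / h ^ 2⌋₊) (𝓝[>] 0) (𝓝 t) := by
  have hX : Tendsto (fun h : ℝ => ⌊t / h ^ 2⌋₊) (𝓝[>] 0) atTop :=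
    tendsto_nat_floor_atTop.comp (tendsto_div_sq ht)
  have h1 := hRS.comp hX
  have h2 := lim_floor_sq ht
  have h3 : Tendsto (fun h : ℝ => log (⌊t / h ^ 2⌋₊ : ℝ) / log (1 / h)) (𝓝[>] 0) (𝓝 2) := by
    have h4 : Tendsto (fun h : ℝ => log (h ^ 2 * (⌊t / h ^ 2⌋₊ : ℝ))) (𝓝[>] 0) (𝓝 (log t)) :=
      (Real.continuousAt_log ht.ne').tendsto.comp h2
    have h5 := (h4.div_atTop lim_log).add_const 2
    rw [zero_add] at h5
    refine h5.congr' ?_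
    filter_upwards [self_mem_nhdsWithin, hX.eventually_ge_atTop 1, lim_log.eventually_gt_atTop 0]
      with h hh hX1 hL
    have hh0 : (0 : ℝ) < h := hh
    have hX0 : (0 : ℝ) < (⌊t / h ^ 2⌋₊ : ℝ) := by exact_mod_cast hX1
    rw [Real.log_mul (by positivity) hX0.ne', Real.log_pow, one_div, Real.log_inv]
    rw [one_div, Real.log_inv] at hL
    have hl : log h ≠ 0 := by
      intro h0
      rw [h0] at hL
      simp at hL
    field_simp
    push_cast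
    ring
  have h6 := ((h1.mul h2).mul (h3.pow 3)).mul_const (π ^ 2 / 8)
  have h7 : (1 : ℝ) / π ^ 2 * t * 2 ^ 3 * (π ^ 2 / 8) = t := by
    have := Real.pi_pos
    field_simp
    norm_num
  rw [h7] at h6
  refine h6.congr' ?_
  filter_upwards [self_mem_nhdsWithin, hX.eventually_ge_atTop 2, lim_log.eventually_gt_atTop 0]
    with h hh hX2 hL
  have hh0 : (0 : ℝ) < h := hh
  have hX2' : (2 : ℝ) ≤ (⌊t / h ^ 2⌋₊ : ℝ) := by exact_mod_cast hX2
  have hlX : 0 < log (⌊t / h ^ 2⌋₊ : ℝ) := Real.log_pos (by linarith)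
  simp only [Function.comp, wt, A_eq]
  field_simp

/-! ### the masses -/

lemma mass_one (w : ℝ) {h y k : ℝ} (hh : 0 < h) (hy : 0 ≤ y) (hyk : y ≤ k) {p : ℕ} (hp : p ≤ ⌊y ^ 2 / h ^ 2⌋₊) :
    mass (Finset.Ioc p ⌊k ^ 2 / h ^ 2⌋₊) (fun n => w * dv n ^ 2) (fun n => √n * h) y =
      w * A ⌊y ^ 2 / h ^ 2⌋₊ - w * A p := by
  have hq : ⌊y ^ 2 / h ^ 2⌋₊ ≤ ⌊k ^ 2 / h ^ 2⌋₊ := by
    apply Nat.floor_le_floor
    gcongr
  have hiff : ∀ n : ℕ, √n * h ≤ y ↔ n ≤ ⌊y ^ 2 / h ^ 2⌋₊ := by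
    intro n
    rw [Nat.le_floor_iff (by positivity), le_div_iff₀ (by positivity)]
    constructor
    · intro h1
      have h2 : (√n * h) ^ 2 ≤ y ^ 2 := by gcongr
      rwa [mul_pow, Real.sq_sqrt (Nat.cast_nonneg n)] at h2
    · intro h1
      apply le_of_sq_le_sq _ hy
      rwa [mul_pow, Real.sq_sqrt (Nat.cast_nonneg n)]
  unfold mass
  simp only [hiff]
  rw [← Finset.sum_Ioc_consecutive _ hp hq]
  have h1 : (∑ n ∈ Finset.Ioc ⌊y ^ 2 / h ^ 2⌋₊ ⌊k ^ 2 / h ^ 2⌋₊,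
      if n ≤ ⌊y ^ 2 / h ^ 2⌋₊ then w * dv n ^ 2 else 0) = 0 :=
    Finset.sum_eq_zero fun n hn => if_neg (not_le.2 (Finset.mem_Ioc.1 hn).1)
  have h2 : (∑ n ∈ Finset.Ioc p ⌊y ^ 2 / h ^ 2⌋₊,
      if n ≤ ⌊y ^ 2 / h ^ 2⌋₊ then w * dv n ^ 2 else 0) =
      ∑ n ∈ Finset.Ioc p ⌊y ^ 2 / h ^ 2⌋₊, w * dv n ^ 2 :=
    Finset.sum_congr rfl fun n hn => if_pos (Finset.mem_Ioc.1 hn).2
  rw [h1, h2, add_zero, ← Finset.mul_sum, ← mul_sub]
  congr 1
  unfold A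
  rw [← Finset.sum_Ioc_consecutive _ (Nat.zero_le p) hp]
  ring

/-- the middle parts of the two sums are close -/
lemma middle (hRS : S_RS) {d k : ℝ} (hd : 0 < d) (hdk : d < k) :
    Tendsto (fun h : ℝ => ∑ n ∈ Finset.Ioc ⌊d ^ 2 / h ^ 2⌋₊ ⌊k ^ 2 / h ^ 2⌋₊, wt h * dv n ^ 2 * ps (√n * h) -
      ∑ m ∈ Finset.Ioc ⌊d / h⌋₊ ⌊k / h⌋₊, h ^ 2 * (2 * (m : ℝ)) * ps (m * h)) (𝓝[>] 0) (𝓝 0) := by
  have hk : 0 < k := hd.trans hdk
  refine compare (δ := d) (K := k) (fun h => Finset.Ioc ⌊d ^ 2 / h ^ 2⌋₊ ⌊k ^ 2 / h ^ 2⌋₊)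
    (fun h n => wt h * dv n ^ 2) (fun h n => √n * h) (fun h => Finset.Ioc ⌊d / h⌋₊ ⌊k / h⌋₊)
    (fun h m => h ^ 2 * (2 * (m : ℝ))) (fun h m => (m : ℝ) * h) hdk ?_ ?_ ?_ ?_
    (fun y => y ^ 2 - d ^ 2) ?_ ?_ (ps_cont hd)
  · filter_upwards [lim_log.eventually_gt_atTop 0] with h hL n _
    unfold wt
    positivity
  · filter_upwards [self_mem_nhdsWithin] with h hh n hn
    have hh0 : (0 : ℝ) < h := hh
    rw [Finset.mem_Ioc, Nat.floor_lt (by positivity), Nat.le_floor_iff (by positivity),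
      div_lt_iff₀ (by positivity), le_div_iff₀ (by positivity)] at hn
    constructor
    · apply lt_of_pow_lt_pow_left₀ 2 (by positivity)
      rw [mul_pow, Real.sq_sqrt (Nat.cast_nonneg n)]
      exact hn.1
    · apply le_of_sq_le_sq _ hk.le
      rw [mul_pow, Real.sq_sqrt (Nat.cast_nonneg n)]
      exact hn.2
  · filter_upwards with h n _
    positivity
  · filter_upwards [self_mem_nhdsWithin] with h hh n hn
    have hh0 : (0 : ℝ) < h := hh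
    rw [Finset.mem_Ioc, Nat.floor_lt (by positivity), Nat.le_floor_iff (by positivity),
      div_lt_iff₀ (by positivity), le_div_iff₀ (by positivity)] at hn
    exact hn
  · intro y h1 h2
    have hy : 0 < y := hd.trans_le h1
    have h3 := (lim_A hRS (t := y ^ 2) (by positivity)).sub (lim_A hRS (t := d ^ 2) (by positivity))
    refine h3.congr' ?_
    filter_upwards [self_mem_nhdsWithin] with h hh
    have hh0 : (0 : ℝ) < h := hh
    refine (mass_one (wt h) hh0 hy.le h2 ?_).symm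
    apply Nat.floor_le_floor
    gcongr
  · intro y h1 h2
    have hy : 0 < y := hd.trans_le h1
    have h3 := (lim_B hy).sub (lim_B hd)
    refine h3.congr' ?_
    filter_upwards [self_mem_nhdsWithin] with h hh
    have hh0 : (0 : ℝ) < h := hh
    refine (mass_two hh0 hy.le h2 ?_).symm
    apply Nat.floor_le_floor
    gcongr

/-! ### the first sum -/

lemma cd_sq {n : ℕ} (hn : 0 < n) : cd n ^ 2 = dv n ^ 2 / (2 * π ^ 2 * √n ^ 3) := by
  have hn0 : (0 : ℝ) < n := by exact_mod_cast hn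
  unfold cd
  rw [mul_pow, div_pow, mul_pow, Real.sq_sqrt (by norm_num : (0 : ℝ) ≤ 2)]
  have e1 : ((n : ℝ) ^ (-(3 / 4) : ℝ)) ^ 2 = (√n ^ 3)⁻¹ := by
    rw [Real.sqrt_eq_rpow, ← Real.rpow_natCast, ← Real.rpow_natCast, ← Real.rpow_mul hn0.le,
      ← Real.rpow_mul hn0.le, ← Real.rpow_neg hn0.le]
    norm_num
  rw [e1]
  field_simp

lemma term_one {h : ℝ} (h0 : 0 < h) (hL : log (1 / h) ≠ 0) {n : ℕ} (hn : 0 < n) :
    cd n ^ 2 * (1 - cos (2 * π * (√n * h))) =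
      4 / π ^ 2 * (h * log (1 / h) ^ 3) * (wt h * dv n ^ 2 * ps (√n * h)) := by
  have hn0 : (0 : ℝ) < n := by exact_mod_cast hn
  have hs : 0 < √(n : ℝ) := Real.sqrt_pos.2 hn0
  have hπ := Real.pi_pos
  rw [cd_sq hn]
  unfold wt ps
  field_simp
  ring

lemma cd_sq_nonneg (n : ℕ) : 0 ≤ cd n ^ 2 := sq_nonneg _

/-- the small `n` -/
lemma first_small {C : ℝ} (hC : 0 < C) (hUP : ∀ (N : ℕ) (h : ℝ), 0 < h → h ≤ 1 →
    ∑ n ∈ Finset.Icc 1 N, cd n ^ 2 * min 2 (2 * π ^ 2 * (n * h ^ 2)) ≤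
      C * (h * (1 + log (1 / h)) ^ 3))
    {d h : ℝ} (hd : 0 < d) (hd1 : π * d ≤ 1) (h0 : 0 < h) (h1 : h ≤ π * d) (hL : 1 ≤ log (1 / h)) :
    ∑ n ∈ Finset.Ioc 0 ⌊d ^ 2 / h ^ 2⌋₊, cd n ^ 2 * (1 - cos (2 * π * (√n * h))) ≤
      8 * π * C * d * (h * log (1 / h) ^ 3) := by
  obtain ⟨h', hh'⟩ : ∃ h' : ℝ, h' = h / (π * d) := ⟨_, rfl⟩
  have hπ := Real.pi_pos
  have h'0 : 0 < h' := by rw [hh']; positivity
  have h'1 : h' ≤ 1 := by rw [hh']; exact div_le_one_of_le₀ h1 (by positivity)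
  have key := hUP ⌊d ^ 2 / h ^ 2⌋₊ h' h'0 h'1
  have hlog0 : 0 ≤ log (1 / h') := by
    apply Real.log_nonneg
    rw [le_div_iff₀ h'0]
    linarith
  have hlog : log (1 / h') ≤ log (1 / h) := by
    apply Real.log_le_log (by positivity)
    rw [hh', one_div_div]
    gcongr
  have e1 : ∑ n ∈ Finset.Ioc 0 ⌊d ^ 2 / h ^ 2⌋₊, cd n ^ 2 * (1 - cos (2 * π * (√n * h))) ≤
      π ^ 2 * d ^ 2 * ∑ n ∈ Finset.Icc 1 ⌊d ^ 2 / h ^ 2⌋₊, cd n ^ 2 * min 2 (2 * π ^ 2 * (n * h' ^ 2)) := by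
    rw [Finset.mul_sum]
    refine Finset.sum_le_sum fun n hn => ?_
    rw [Finset.mem_Ioc, Nat.le_floor_iff (by positivity), le_div_iff₀ (by positivity)] at hn
    have e2 : 2 * π ^ 2 * (n * h' ^ 2) = 2 * (n * h ^ 2) / d ^ 2 := by
      rw [hh']
      field_simp
    have e3 : 2 * (n * h ^ 2) / d ^ 2 ≤ 2 := by
      rw [div_le_iff₀ (by positivity)]
      linarith [hn.2]
    rw [e2, min_eq_right e3]
    have e4 := one_sub_cos_le n h
    have e5 := cd_sq_nonneg n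
    calc cd n ^ 2 * (1 - cos (2 * π * (√n * h))) ≤ cd n ^ 2 * (2 * π ^ 2 * (n * h ^ 2)) := by gcongr
      _ = π ^ 2 * d ^ 2 * (cd n ^ 2 * (2 * (n * h ^ 2) / d ^ 2)) := by field_simp
  calc _ ≤ _ := e1
    _ ≤ π ^ 2 * d ^ 2 * (C * (h' * (1 + log (1 / h')) ^ 3)) := by gcongr
    _ ≤ π ^ 2 * d ^ 2 * (C * (h' * (2 * log (1 / h)) ^ 3)) := by
        gcongr
        linarith
    _ = _ := by
        rw [hh']
        field_simp
        ring

/-- the large `n` -/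
lemma first_large {C : ℝ} (hC : 0 < C) (hUP : ∀ (N : ℕ) (h : ℝ), 0 < h → h ≤ 1 →
    ∑ n ∈ Finset.Icc 1 N, cd n ^ 2 * min 2 (2 * π ^ 2 * (n * h ^ 2)) ≤
      C * (h * (1 + log (1 / h)) ^ 3))
    {k h : ℝ} (hk : 1 ≤ k) (h0 : 0 < h) (h1 : h ≤ 1) (hL : 1 ≤ log (1 / h))
    (hLk : log k ≤ log (1 / h)) (N : ℕ) :
    ∑ n ∈ Finset.Ioc ⌊k ^ 2 / h ^ 2⌋₊ N, cd n ^ 2 * (1 - cos (2 * π * (√n * h))) ≤
      27 * C / k * (h * log (1 / h) ^ 3) := by
  obtain ⟨h', hh'⟩ : ∃ h' : ℝ, h' = h / k := ⟨_, rfl⟩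
  have hπ := Real.pi_gt_three
  have hk0 : 0 < k := by linarith
  have h'0 : 0 < h' := by rw [hh']; positivity
  have h'1 : h' ≤ 1 := by rw [hh']; exact div_le_one_of_le₀ (h1.trans hk) (by positivity)
  have key := hUP N h' h'0 h'1
  have hlk := Real.log_nonneg hk
  have hlog : log (1 / h') = log k + log (1 / h) := by
    rw [← Real.log_mul (by positivity) (by positivity), hh', one_div_div]
    congr 1
    field_simp
  have e1 : ∑ n ∈ Finset.Ioc ⌊k ^ 2 / h ^ 2⌋₊ N, cd n ^ 2 * (1 - cos (2 * π * (√n * h))) ≤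
      ∑ n ∈ Finset.Icc 1 N, cd n ^ 2 * min 2 (2 * π ^ 2 * (n * h' ^ 2)) := by
    refine (Finset.sum_le_sum (g := fun n : ℕ => cd n ^ 2 * min 2 (2 * π ^ 2 * (n * h' ^ 2)))
      fun n hn => ?_).trans (Finset.sum_le_sum_of_subset_of_nonneg ?_ fun n _ _ => ?_)
    · rw [Finset.mem_Ioc, Nat.floor_lt (by positivity), div_lt_iff₀ (by positivity)] at hn
      have e3 : (2 : ℝ) ≤ 2 * π ^ 2 * (n * h' ^ 2) := by
        have e4 : 1 ≤ (n : ℝ) * h' ^ 2 := by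
          rw [hh', div_pow, ← mul_div_assoc, le_div_iff₀ (by positivity)]
          linarith [hn.1]
        nlinarith
      rw [min_eq_left e3]
      have e5 := Real.neg_one_le_cos (2 * π * (√n * h))
      have e6 := cd_sq_nonneg n
      nlinarith
    · intro n hn
      rw [Finset.mem_Ioc] at hn
      rw [Finset.mem_Icc]
      omega
    · have e6 := cd_sq_nonneg n
      have e7 : 0 ≤ min 2 (2 * π ^ 2 * ((n : ℝ) * h' ^ 2)) := le_min (by norm_num) (by positivity)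
      positivity
  calc _ ≤ _ := e1
    _ ≤ C * (h' * (1 + log (1 / h')) ^ 3) := key
    _ ≤ C * (h' * (3 * log (1 / h)) ^ 3) := by
        have : 0 ≤ 1 + log (1 / h') := by rw [hlog]; linarith
        gcongr
        linarith
    _ = _ := by
        rw [hh']
        field_simp
        ring

theorem t_VAR : S_RS → S_UP → S_VAR := by
  rintro hRS ⟨C, hC, -, hUP⟩ ε hε
  have hπ := Real.pi_gt_three
  -- the parameters
  obtain ⟨e, he⟩ : ∃ e : ℝ, e = ε / 40 := ⟨_, rfl⟩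
  have he0 : 0 < e := by rw [he]; positivity
  obtain ⟨d, hd⟩ : ∃ d : ℝ, d = min (1 / π) (e / (4 + 8 * π * C)) := ⟨_, rfl⟩
  have hd0 : 0 < d := by
    rw [hd]
    exact lt_min (by positivity) (by positivity)
  have hd1 : π * d ≤ 1 := by
    have : d ≤ 1 / π := by rw [hd]; exact min_le_left _ _
    rw [le_div_iff₀ (by positivity)] at this
    linarith
  have hd2 : d * (4 + 8 * π * C) ≤ e := by
    have : d ≤ e / (4 + 8 * π * C) := by rw [hd]; exact min_le_right _ _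
    rwa [le_div_iff₀ (by positivity)] at this
  obtain ⟨k, hk⟩ : ∃ k : ℝ, k = max 1 ((8 + 27 * C) / e) := ⟨_, rfl⟩
  have hk1 : 1 ≤ k := by rw [hk]; exact le_max_left _ _
  have hk0 : 0 < k := by linarith
  have hk2 : (8 + 27 * C) / k ≤ e := by
    have : (8 + 27 * C) / e ≤ k := by rw [hk]; exact le_max_right _ _
    rw [div_le_iff₀ he0] at this
    rw [div_le_iff₀ hk0]
    linarith
  have hdk : d < k := by
    have : d ≤ 1 / π := by rw [hd]; exact min_le_left _ _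
    have h2 : 1 / π < 1 := by rw [div_lt_one (by positivity)]; linarith
    linarith
  have hev := (middle hRS hd0 hdk)
  rw [Metric.tendsto_nhds] at hev
  have hev2 : ∀ᶠ h : ℝ in 𝓝[>] 0, 0 < h ∧ h < min (1 / 2) (min (π * d) (e / 2)) := by
    have : (0 : ℝ) < min (1 / 2) (min (π * d) (e / 2)) := by positivity
    filter_upwards [Ioo_mem_nhdsGT this] with h hh using hh
  have hev3 := ((hev e he0).and hev2).and ((lim_log.eventually_ge_atTop 1).and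
    (lim_log.eventually_ge_atTop (log k)))
  rw [eventually_nhdsWithin_iff, Metric.eventually_nhds_iff] at hev3
  obtain ⟨h₁, hh₁, hall⟩ := hev3
  refine ⟨h₁ / 2, by positivity, fun h h0 hle => ?_⟩
  obtain ⟨⟨a1, -, a2⟩, a3, a4⟩ := hall (y := h) (by
    rw [Real.dist_eq, sub_zero, abs_of_pos h0]
    linarith) h0
  have b1 : h < 1 / 2 := a2.trans_le (min_le_left _ _)
  have b2 : h < π * d := a2.trans_le ((min_le_right _ _).trans (min_le_left _ _))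
  have b3 : h < e / 2 := a2.trans_le ((min_le_right _ _).trans (min_le_right _ _))
  refine ⟨⌊k ^ 2 / h ^ 2⌋₊, fun N hN => ?_⟩
  obtain ⟨p, hp⟩ : ∃ p : ℕ, p = ⌊d ^ 2 / h ^ 2⌋₊ := ⟨_, rfl⟩
  obtain ⟨q, hq⟩ : ∃ q : ℕ, q = ⌊k ^ 2 / h ^ 2⌋₊ := ⟨_, rfl⟩
  have hpq : p ≤ q := by
    rw [hp, hq]
    apply Nat.floor_le_floor
    gcongr
  rw [← hq] at hN
  obtain ⟨Λ, hΛ⟩ : ∃ Λ : ℝ, Λ = h * log (1 / h) ^ 3 := ⟨_, rfl⟩
  have hΛ0 : 0 < Λ := by rw [hΛ]; positivity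
  have s1 := first_small hC hUP hd0 hd1 h0 b2.le a3
  have s2 := first_large hC hUP hk1 h0 (by linarith) a3 a4 N
  have s3 := second hd0 hdk hk1 h0 b1.le
  rw [Real.dist_eq, sub_zero] at a1
  rw [← hp, ← hΛ] at s1
  rw [← hq, ← hΛ] at s2
  rw [← hp, ← hq] at a1
  rw [← hΛ]
  have n1 : 0 ≤ ∑ n ∈ Finset.Ioc 0 p, cd n ^ 2 * (1 - cos (2 * π * (√n * h))) :=
    Finset.sum_nonneg fun n _ => mul_nonneg (cd_sq_nonneg n)
      (by linarith [Real.cos_le_one (2 * π * (√n * h))])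
  have n2 : 0 ≤ ∑ n ∈ Finset.Ioc q N, cd n ^ 2 * (1 - cos (2 * π * (√n * h))) :=
    Finset.sum_nonneg fun n _ => mul_nonneg (cd_sq_nonneg n)
      (by linarith [Real.cos_le_one (2 * π * (√n * h))])
  have hmid : ∑ n ∈ Finset.Ioc p q, cd n ^ 2 * (1 - cos (2 * π * (√n * h))) =
      4 / π ^ 2 * Λ * ∑ n ∈ Finset.Ioc p q, wt h * dv n ^ 2 * ps (√n * h) := by
    rw [Finset.mul_sum]
    refine Finset.sum_congr rfl fun n hn => ?_
    rw [Finset.mem_Ioc] at hn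
    rw [term_one h0 (by linarith) (by omega), hΛ]
  have hsplit : ∑ n ∈ Finset.Icc 1 N, cd n ^ 2 * (1 - cos (2 * π * (√n * h))) =
      (∑ n ∈ Finset.Ioc 0 p, cd n ^ 2 * (1 - cos (2 * π * (√n * h)))) +
      ((∑ n ∈ Finset.Ioc p q, cd n ^ 2 * (1 - cos (2 * π * (√n * h)))) +
      ∑ n ∈ Finset.Ioc q N, cd n ^ 2 * (1 - cos (2 * π * (√n * h)))) := by
    rw [Finset.sum_Ioc_consecutive _ hpq hN, Finset.sum_Ioc_consecutive _ (Nat.zero_le p) (hpq.trans hN)]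
    rfl
  rw [hsplit, hmid]
  obtain ⟨M1, hM1⟩ : ∃ M1 : ℝ, M1 = ∑ n ∈ Finset.Ioc p q, wt h * dv n ^ 2 * ps (√n * h) := ⟨_, rfl⟩
  obtain ⟨M2, hM2⟩ : ∃ M2 : ℝ, M2 = ∑ m ∈ Finset.Ioc ⌊d / h⌋₊ ⌊k / h⌋₊, h ^ 2 * (2 * (m : ℝ)) * ps (m * h) :=
    ⟨_, rfl⟩
  rw [← hM1, ← hM2] at a1
  rw [← hM2] at s3
  rw [← hM1]
  have t1 : 2 * h + 4 * d + 8 / k ≤ 3 * e := by
    have u1 : 4 * d ≤ e := by
      have : 0 < d * (8 * π * C) := by positivity
      linarith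
    have u2 : 8 / k ≤ e := by
      refine le_trans ?_ hk2
      gcongr
      linarith
    linarith
  have t2 : |M1 - 2| ≤ 4 * e := by
    have c1 := abs_lt.1 a1
    have c2 := abs_le.1 (s3.trans t1)
    rw [abs_le]
    constructor <;> linarith [c1.1, c1.2, c2.1, c2.2]
  have t3 : 8 * π * C * d * Λ ≤ e * Λ := by
    gcongr
    linarith
  have t4 : 27 * C / k * Λ ≤ e * Λ := by
    have : 27 * C / k ≤ e := by
      refine le_trans ?_ hk2
      gcongr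
      linarith
    gcongr
  have hq4 : 4 / π ^ 2 ≤ 1 := by
    rw [div_le_one (by positivity)]
    nlinarith
  have hq0 : 0 < 4 / π ^ 2 := by positivity
  have t5 : |4 / π ^ 2 * Λ * M1 - 8 / π ^ 2 * Λ| ≤ 4 * e * Λ := by
    have : 4 / π ^ 2 * Λ * M1 - 8 / π ^ 2 * Λ = 4 / π ^ 2 * (Λ * (M1 - 2)) := by ring
    rw [this, abs_mul, abs_of_pos hq0, abs_mul, abs_of_pos hΛ0]
    calc 4 / π ^ 2 * (Λ * |M1 - 2|) ≤ 1 * (Λ * (4 * e)) := by gcongr
      _ = 4 * e * Λ := by ring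
  have c3 := abs_le.1 t5
  have hεe : ε * Λ = 40 * e * Λ := by rw [he]; ring
  have heΛ : 0 < e * Λ := by positivity
  rw [hεe, abs_le]
  constructor <;> nlinarith [c3.1, c3.2]

end Pool.Agent.U858.LD
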